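import Pool.Agent.W250.RKJ.Thm2
import Pool.Agent.W340.RKJ.Pic

set_option autoImplicit false

/-!
# Maximisers of the eigenvalue-torsion functional `F_q` for explicit `q`

`M_{d,q}`, the supremum of `F_q` over the open sets of finite positive volume, is a maximum,
attained by the ball, for every `q ≥ 4` in the plane, for every `q ≥ 15/2` in space and for every
`q` above an explicit threshold in every dimension.
-/

open MeasureTheory Metric Set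

namespace Pool.Agent.Results.MP_898b17_an.ExplicitMaximisers

/-- the infimum of the Rayleigh quotients of the `C^1` functions with compact support in `Ω` -/
noncomputable def lam {d : ℕ} (Ω : Set (EuclideanSpace ℝ (Fin d))) : ℝ :=
  sInf {r : ℝ | ∃ u : EuclideanSpace ℝ (Fin d) → ℝ, ContDiff ℝ 1 u ∧ HasCompactSupport u ∧
    tsupport u ⊆ Ω ∧ u ≠ 0 ∧ r = (∫ x, ‖fderiv ℝ u x‖ ^ 2) / (∫ x, u x ^ 2)}

/-- torsional rigidity -/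
noncomputable def tor {d : ℕ} (Ω : Set (EuclideanSpace ℝ (Fin d))) : ℝ :=
  sSup {r : ℝ | ∃ u : EuclideanSpace ℝ (Fin d) → ℝ, ContDiff ℝ 1 u ∧ HasCompactSupport u ∧
    tsupport u ⊆ Ω ∧ u ≠ 0 ∧ r = (∫ x, u x) ^ 2 / (∫ x, ‖fderiv ℝ u x‖ ^ 2)}

/-- the scale invariant functional `F_q` -/
noncomputable def Fq {d : ℕ} (q : ℝ) (Ω : Set (EuclideanSpace ℝ (Fin d))) : ℝ :=
  lam Ω * (tor Ω) ^ q / ((volume Ω).toReal) ^ ((q * ((d : ℝ) + 2) - 2) / (d : ℝ))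

/-- the entire function with `4 y F'' + 4 ν F' + F = 0`, `F(0) = 1` -/
noncomputable def F (ν y : ℝ) : ℝ :=
  ∑' k : ℕ, (-y / 4) ^ k / ((k.factorial : ℝ) * ∏ i ∈ Finset.range k, (ν + i))

/-- `z` is the first zero of `F ν` on `[0, ∞)` -/
def FirstZero (ν z : ℝ) : Prop :=
  0 < z ∧ F ν z = 0 ∧ ∀ y, 0 ≤ y → y < z → 0 < F ν y

theorem result :
    (∀ q : ℝ, 4 ≤ q →
      IsGreatest {r : ℝ | ∃ Ω : Set (EuclideanSpace ℝ (Fin 2)), IsOpen Ω ∧ Ω.Nonempty ∧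
        volume Ω < ⊤ ∧ r = Fq q Ω} (Fq q (ball (0 : EuclideanSpace ℝ (Fin 2)) 1))) ∧
    (∀ q : ℝ, 15 / 2 ≤ q →
      IsGreatest {r : ℝ | ∃ Ω : Set (EuclideanSpace ℝ (Fin 3)), IsOpen Ω ∧ Ω.Nonempty ∧
        volume Ω < ⊤ ∧ r = Fq q Ω} (Fq q (ball (0 : EuclideanSpace ℝ (Fin 3)) 1))) ∧
    (∀ d : ℕ, 1 ≤ d → ∃ z : ℝ, FirstZero ((d : ℝ) / 2) z ∧
      ∀ y0 q : ℝ, 0 < y0 → y0 < 1 → 1 < q →
      2 / ((d : ℝ) + 2) * (Real.log (1 - y0) /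
        Real.log (1 - y0 / (1 / F ((d : ℝ) / 2 + 1) z ^ 2))) ≤ q →
      1 + Real.log ((d : ℝ) * ((d : ℝ) + 2) / z) /
        (-Real.log (1 - y0 / (1 / F ((d : ℝ) / 2 + 1) z ^ 2))) ≤ q →
      IsGreatest {r : ℝ | ∃ Ω : Set (EuclideanSpace ℝ (Fin d)), IsOpen Ω ∧ Ω.Nonempty ∧
        volume Ω < ⊤ ∧ r = Fq q Ω} (Fq q (ball (0 : EuclideanSpace ℝ (Fin d)) 1))) := by
  have hpic : Pool.Agent.W250.RKJ.SPIC := Pool.Agent.W340.RKJ.pic Pool.Agent.W250.RKJ.hSF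
  have hb : ∀ (d : ℕ) (q : ℝ), Fq q (ball (0 : EuclideanSpace ℝ (Fin d)) 1) ∈
      {r : ℝ | ∃ Ω : Set (EuclideanSpace ℝ (Fin d)), IsOpen Ω ∧ Ω.Nonempty ∧
        volume Ω < ⊤ ∧ r = Fq q Ω} := fun d q =>
    ⟨ball 0 1, isOpen_ball, ⟨0, mem_ball_self one_pos⟩, measure_ball_lt_top, rfl⟩
  refine ⟨fun q hq => ⟨hb 2 q, ?_⟩, fun q hq => ⟨hb 3 q, ?_⟩, fun d hd => ?_⟩
  · rintro r ⟨Ω, ho, hne, hfin, rfl⟩
    exact Pool.Agent.W250.RKJ.plane hpic hq ho hne hfin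
  · rintro r ⟨Ω, ho, hne, hfin, rfl⟩
    exact Pool.Agent.W250.RKJ.space hpic hq ho hne hfin
  · have hd0 : (0 : ℝ) < d := by exact_mod_cast hd
    obtain ⟨z, hz⟩ := Pool.Agent.W250.RKJ.hSEX ((d : ℝ) / 2) (by positivity)
    refine ⟨z, hz, fun y0 q hy0 hy1 hq h1 h2 => ⟨hb d q, ?_⟩⟩
    rintro r ⟨Ω, ho, hne, hfin, rfl⟩
    exact Pool.Agent.W250.RKJ.general hpic hd hz hy0 hy1 hq h1 h2 ho hne hfin

end Pool.Agent.Results.MP_898b17_an.ExplicitMaximisers
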